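import Pool.Agent.H854.HF.Fin

/-!
# The Tate conjecture for smooth varieties in characteristic `p` and the hypersurfaces
`z + g(x_1, ..., x_n, z) ^ p = 0`

Let `p ≠ ℓ` be prime numbers and `k` a field of characteristic `p`. For every polynomial `g` over `k`
the hypersurface `z + g(x_1, ..., x_n, z) ^ p = 0` in the affine space of dimension `n + 1` is smooth,
because the derivative with respect to `z` is `1`; so it is étale over the affine space with the
coordinates `x_1, ..., x_n`, and finite if `g` is monic in `z`.

**Normal form.** Every smooth variety of dimension `n` over `k` has a non-empty open subset that is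
isomorphic over `k` to an irreducible component of such a hypersurface, with `g` monic in `z`
(`IsComponent`, `hyp`). This is proved without any hypothesis: Kedlaya's trick gives a non-empty open
subset that is finite étale over the affine space, with coordinate ring `B` over `A = k[x]`. For a
primitive element `b` and a suitable `h` in `A` the ring `B[1/h]` is generated over `A` by
`w = b + 1/h`. Nagata's change of coordinates `x_i ↦ x_i + w ^ (p M ^ i)` makes it finite étale over
`k[x]` again, and then `w ^ p` is also a generator, which gives the equation.

A class in `H^{2i}(X ⊗ K̄, ℚ̄_ℓ(i))` is a Tate class if it is Galois invariant, and `T^i(X)` says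
that each Tate class vanishes outside a closed subset of codimension at least `i`; by semi-purity
this means that it is a combination of classes of algebraic cycles.

**Theorem.**
1. (finite fields, dimension by dimension) For every `n`: the conjectures `T^i`, `i ≥ 1`, hold for all
   smooth varieties of dimension at most `n` over finite fields of characteristic `p` if and only if,
   for `2 ≤ 2i ≤ m ≤ n`, each Tate class of degree `2i` on each component of each hypersurface
   `z + g(x_1, ..., x_m, z) ^ p = 0` over the prime field `𝔽_p` vanishes on a non-empty open subset.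
   In this case the eigenvalue one of Frobenius on `H^{2i}(X ⊗ K̄, ℚ̄_ℓ(i))` is semisimple.
2. (finitely generated fields, codimension by codimension) For every `N`: `T^i` and the
   semisimplicity hold for `1 ≤ i ≤ N` and all smooth varieties over all finitely generated fields of
   characteristic `p` if and only if, for `1 ≤ i ≤ N`, each Tate class of degree `2i` on each
   component of each hypersurface `z + g(x_1, ..., x_{2i}, z) ^ p = 0` over each field
   `𝔽_p(t_1, ..., t_r)` vanishes on a non-empty open subset.

The cohomology is the `ℓ`-adic cohomology `EllAdicCohomology` of Mathlib, with the Galois action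
constructed in the module `Y135.Gal` of the library. The published theorems that are used are the
fields of `FiniteFieldFacts` (module `Pool.Agent.H854.HF.Fin`) and `KnownFacts`
(module `Pool.Agent.H854.FE.Facts`).
-/

open CategoryTheory AlgebraicGeometry

namespace Pool.Agent.Results.MP_2a05c8_ag.HypersurfacesOfUnitDerivative

open Pool.Agent.H854.FE Pool.Agent.H854.HF

/-- Every smooth variety of dimension `n` over a field of characteristic `p` has a non-empty open
subset that is isomorphic to a component of a hypersurface `z + g(x_1, ..., x_n, z) ^ p = 0`, and
`T^i` for all smooth varieties in characteristic `p` is equivalent to the generic vanishing of the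
Tate classes on these hypersurfaces. -/
theorem result (p ℓ : ℕ) [Fact p.Prime] [Fact ℓ.Prime] :
    (∀ (k : Type) [Field k] [CharP k p] (n : ℕ),
      (∀ (X : Scheme.{0}) (f : X ⟶ Spec (.of k)) [IsVar n f],
        ∃ P : Polynomial (MvPolynomial (Fin n) k), IsComponent p P ∧ HasOpenSubset f P) ∧
      (∀ P : Polynomial (MvPolynomial (Fin n) k), IsComponent p P → IsVar n (hypStr k n P)) ∧
      ∀ i, HypVanishing p ℓ k n i ↔
        ∀ (X : Scheme.{0}) (f : X ⟶ Spec (.of k)) [IsVar n f], GenericVanishing ℓ f i) ∧
    (FiniteFieldFacts p ℓ → ∀ n,
      ((∀ m, m ≤ n → ∀ i, 1 ≤ i → 2 * i ≤ m → HypVanishing p ℓ (ZMod p) m i) ↔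
        ∀ m, m ≤ n → ∀ i, 1 ≤ i → TateFinite p ℓ i m)) ∧
    (KnownFacts p ℓ → ∀ N,
      ((∀ i, 1 ≤ i → i ≤ N → ∀ r, HypVanishing p ℓ (RatField p r) (2 * i) i) ↔
        ∀ i, 1 ≤ i → i ≤ N → TateAll p ℓ i ∧ SemisimpleAll p ℓ i)) := by
  refine ⟨?_, main_fin, main_hyp⟩
  intro k _ _ n
  refine ⟨?_, fun P hP => hP.isVar, fun i => ⟨?_, ?_⟩⟩
  · intro X f hf
    exact exists_component p f
  · intro h X f _
    exact vanishing_of_hyp h f
  · intro h P hP
    have := hP.isVar
    exact h (hyp k n P) (hypStr k n P)

end Pool.Agent.Results.MP_2a05c8_ag.HypersurfacesOfUnitDerivative
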