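import Mathlib
import Pool.Agent.H855.DP.Arith

/-!
# The Tate conjecture for the products of any two smooth varieties, proper or not, outside of finitely many
exceptional slope vectors

Let `X` and `Y` be smooth varieties, proper or not. If every Tate class is a linear combination of classes
of cycles for `X` and for `Y`, what can be said about `X × Y`? We show for given `Y` that only the
obvious Tate classes exist on `X × Y`, for **all** smooth varieties `X` over all finite fields which
avoid finitely many exceptional slope vectors, and that then `T^n(X × Y)` for all `n ≤ m` is
**equivalent** to `T^n(X)` and `T^n(Y)` for all `n ≤ m`. Here `Y` can be a variety over a finitely
generated field `k` of characteristic `p`, and `X` a variety over its field of constants; and there is a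
version for finitely generated fields of characteristic zero, with the same exceptional set, where `X`
is an abelian variety.

Let `K i` (`i` in any set `I`) be CM fields, for instance **all** CM fields, and let `V i` be the space of
the odd rational functions on the complex embeddings of `K i`, a representation of the automorphisms of
`ℂ`. We fix an isomorphism `ν` of the algebraic closure of `ℚ_p` with `ℂ`; it defines a `p`-adic
valuation `v` of `ℂ` with `v p = 1`. The slope vector of a Weil number `π` for `p ^ a` in `K i` is the
function `x φ = 2 v (φ π) - a` on the complex embeddings `φ` of `K i` (`slopeVector`).

A number `ρ` comes from the finite set `Ω` of complex numbers (`From p Ω`) if it is not zero and a power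
of it is the product of a power of a conjugate of an element of `Ω`, or of `1`, and of a power of `p`.

**The theorem: there is a set `E` of at most `|Ω|` pairs `(i, v)`, where `v` is an odd function, not zero,
on the complex embeddings of `K i`, such that the statements below on finitely generated fields of
characteristic `p` (`SmoothDecoupled`) and of characteristic zero (`SplitOutside`) are true for all
`a > 0` and all finite families of Weil numbers `π j` for `p ^ a`, each in one of the fields `K i`, such
that no vector of `E` is a combination of the slope vectors `x j` of the `π j`.** The set `E` depends only on `ν`, `Ω` and the fields `K i`. If `Ω` is stable under the automorphisms of `ℂ`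
and its elements are nonzero and lie in CM fields or totally real fields (`IsStable`), then moreover
`∑ w i ≤ |Ω|`, the sum over the elements `(i, v)` of `E`; here `w i` is twice a lower bound for the
dimensions of the nonzero stable subspaces of `V i`, so `w i = [K i : ℚ]` if `V i` is irreducible, and
`w i = 2` is always possible (`IsWeight`, `IsSmall`).

A vector `v` on the embeddings of a field `K` is a combination of the slope vectors (`IsCombination`)
if it is the sum of the images of the `x j` under equivariant maps, that is,
`v φ = ∑ t φ (j, ψ) * x j ψ` with rational numbers `t φ (j, ψ)` which are invariant under the
automorphisms of `ℂ`, odd in `ψ`, and zero if the fields `K` and `L j` are unrelated (there are no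
nonzero equivariant maps between their odd functions), where `L j` is the field of `π j`. So if
`K i` is unrelated to all the `L j` the condition on the elements `(i, v)` of `E` is satisfied: apart from
at most `|Ω|` fields, and the fields related to them, there are **no** exceptional varieties `X`.
(Exceptions are necessary: if `X` is a curve or an abelian variety and `Y = X` then there are
invariants in `H^1(X) ⊗ H^1(Y)`.)

**Characteristic `p`.** Let `X` be a smooth geometrically connected variety over the field with `Q = p ^ r`
elements, proper or not, such that the eigenvalues of weight `a` of Frobenius on `H^a(X)`, for all `a`,
are generated by the `π j`: a power of each of them is a product of powers of conjugates of the `π j` and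
of `p` (`PureGenerated`). **Every smooth `X` is of this kind if the `K i` are all CM fields** (up to
isomorphism): if `α` is such an eigenvalue then a power of `α` is rational, or `α ^ n`, for suitable
`n > 0`, is a Weil number for `Q ^ (a n)` in a CM field, and we can choose the `n = n (α)` such that
`a n` does not depend on `α`. No independence of the `π j` is supposed, and there is no condition on the
eigenvalues of higher weight. Let `Y` be a smooth geometrically connected variety over a finitely
generated field `k` with the field of constants `F_Q` (for instance `k = F_Q`), such that the eigenvalues
of weight `b` on `H^b(Y)`, for all `b`, come from `Ω` (`PureFrom`); here `H^b(Y)` is the space of the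
invariants of the geometric fundamental group (of an open part of a model of `k`) in the cohomology of
`Y` over the algebraic closure, with the Frobenius endomorphism of the field of constants (for `k = F_Q`
this is the whole cohomology). The Tate classes for `Y` are the elements of `H^(2 n)(Y)` which Frobenius
multiplies by `Q ^ n` (`E^n(Y)`, `invariants`). We suppose that one of `X` and `Y` is tight
(`TightPure`): the only supersingular eigenvalues of weight `a` on `H^a`, for all `a`, are the powers of
`Q` (`IsSupersingular`: all slopes are equal, that is, a power of the number is a power of `p`; over a
sufficiently large finite field this means that there are no supersingular eigenvalues of weight `a` on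
`H^a` for odd `a`). Then, for all `m` (`Decoupled`):

1. the eigenvalue `Q ^ n` of Frobenius on `H^(2 n)(X × Y)` is semisimple for all `n ≤ m` if and only if
   this is true for `X` and for `Y`;
2. this and `T^n(X × Y)` for all `n ≤ m` is equivalent to the same for `X` and for `Y`;
3. if Frobenius is semisimple at `Q ^ n`, `n ≤ m`, for one of `X` and `Y` (for instance, if `X` is an
   open part of an abelian variety or of a K3 surface), then the Tate classes are
   `E^n(X × Y) = ∑ E^i(X) ⊗ E^(n - i)(Y)` for `n ≤ m`, and **`T^n(X × Y)` for all `n ≤ m` is equivalent
   to `T^n(X)` and `T^n(Y)` for all `n ≤ m`.**

**Characteristic zero.** Suppose that the `π j` generate their fields and that the family is independent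
(`IsIndependent`: the slope vectors `x j` and their translates satisfy no nontrivial linear relation with
rational coefficients, `NoSlopeRelations`; there are also criteria in terms of the fields, as in
`MP_950c68_ag.ExceptionalVectors`). Let `A` be an abelian variety over a finitely generated field `k` of
characteristic zero, with good reduction at ONE closed point of a model of `k`, the residue field having
`p ^ a` elements, such that the characteristic polynomial of the Frobenius element `γ` on the Tate module
`V = V_ℓ (A)`, `ℓ ≠ p`, is the product of the minimal polynomials of the `π j`. Let `U` be **any** smooth
variety over `k`, and `M = W_b H^b(U, ℚ_ℓ(i))`, the part of lowest weight (it contains the Tate classes),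
or any other representation of the Galois group `Γ`, such that the eigenvalues of `γ` on `M` are roots of
a rational polynomial, not zero, all of whose complex roots come from `Ω`. Then (`ClassesSplit`) **the classes in `H^j(A ^ r) ⊗ M` which are fixed by an open subgroup of `Γ` are
zero for odd `j`, and linear combinations of products of `m` Tate classes of degree two on `A ^ r` (that
is, of divisor classes, by Faltings) and of Tate classes in `M(-m)` for `j = 2 m`.** The classes in
`H^j(A ^ r) ⊗ M` are the alternating maps of `j` variables from `V ^ r` to `M`. So for
all these `A` and `U` **the Tate conjecture for `A ^ r × U` (all `r`, over all finite extensions, all
codimensions) is equivalent to the Tate conjecture for `U`.** The hypotheses on `V` (`IsPolarised`) are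
the Weil pairing and the semisimplicity (Faltings). Nothing is assumed on the semisimplicity of `M`.

A finite set `Ω` as above exists for every `Y` and every `U` with good reduction (take one root of each
irreducible factor of the characteristic polynomials of Frobenius).

The results of earlier runs for this problem on products are about abelian varieties `A` (with
independent Weil numbers in special CM fields, or one family) times a smooth variety. In the first part
`X` is an **arbitrary** smooth variety; its Tate classes may be exotic, and both directions of the
equivalence are proved. Neither the theorem of Tate on divisors nor the nilpotence theorem of Kimura is
used. In the second part the CM fields are arbitrary, and all finite families are considered at the same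
time. `MP_950c68_ag.ProductsOfVarieties` is the case of projective varieties over finite fields.

The framework for characteristic `p`: the cohomology groups of `X` and `Y`, with complex coefficients (we
choose an isomorphism of the algebraic closure of `ℚ_ℓ` with `ℂ`), with the Frobenius endomorphisms, the
spaces `A^i` spanned by the classes of cycles, the class of `X` and the restriction to a point
(`VarietyData`), and the theorem of Deligne on the weights: the weights of `H^a` are at least `a`
(`IsSmooth`). The cohomology of `X × Y` is the tensor product, by the Künneth formula (`PairH`, `frobT`,
`devP`); the products of cycles on `X` and `Y` are cycles on `X × Y` (`HasProducts`), and the restrictions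
of a cycle on `X × Y` to `{x} × Y` and `X × {y}` are cycles (`HasRestrictions`, `ProductData`,
`IsProduct`; if `k` is not finite then a cycle on `X × {y}` is specialised to a closed point of a model
of `k(y)`).

The proof. For `β` in `Ω` let `g` be the function `σ ↦ v (σ β) - v (conj (σ β))` of the automorphisms `σ` of
`ℂ`, and `M` the rational representation generated by it. Suppose that for some family there is a
relation between the conjugates of the `π j` and a number that comes from `β`. Computing valuations, `g` is
a value `σ ↦ ∑ n (j, ψ) x j (σ ψ)` of the relation map of the family, `n` odd. Compose the orthogonal
projection to the representation generated by `n` with the relation map: this is an equivariant map from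
the odd functions of the family to `M` which is not zero, hence not zero on the odd functions of one
of the fields `K i`, and there it is given by a vector `v`: the exceptional vector of `β`
(`exists_vector`). If `g` is a value of the relation map of **another** family then so are all elements
of `M`, in particular the functions `σ ↦ v (σ φ)`, and choosing the values orthogonal to the relations we
see that `v` is a combination of its slope vectors (`isCombination_of`, `exists_core`). So outside of the exceptional vectors, if `α β = Q ^ n` for
eigenvalues on `H^a(X)` and `H^b(Y)`, `a + b = 2 n`, then they have the weights `a` and `b`
(`pure_of_mul`), and `α` and `β` are supersingular (`relMap_generated`), hence powers of `Q`: `α = Q ^ i`,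
`a = 2 i`, `β = Q ^ (n - i)`, `b = 2 (n - i)`. The statements (1), (2), (3) follow from the decomposition
of `H^a(X) ⊗ H^b(Y)` under the Frobenius endomorphisms of `X` and `Y` (`decoupled`). In characteristic
zero, the products of conjugates of the `π j` which agree with an eigenvalue of `γ` on `M` up to a root of
unity are products of pairs of conjugate numbers (`forces_ofE`); by the semisimplicity, and as the angle
rank is maximal (`angle_ofE`), the Lie algebra of the endomorphisms of `V` which kill all the components
of a Tate class is over a finite extension a product of symplectic and general linear Lie algebras, and
the first fundamental theorem of invariant theory gives the result (`EV.split_of_forces` of the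
library).
-/

set_option autoImplicit false

namespace Pool.Agent.Results.MP_2a05c8_ag.ProductsOfSmoothVarieties

open NumberField Pool.Agent.H855.CM Pool.Agent.H855.DP

/-- **Smooth varieties `X` and `Y` of characteristic `p`, where the eigenvalues of weight `b` on `H^b(Y)`
come from the finite set `Ω` and those of weight `a` on `H^a(X)` are generated by Weil numbers in the CM
fields `K i`, outside of a set `E` of at most `|Ω|` exceptional slope vectors: the Tate conjecture (with
the semisimplicity) for `X × Y` in the codimensions up to `m` is equivalent to the one for `X` and for
`Y`. Smooth varieties `U` over finitely generated fields of characteristic zero whose Frobenius
eigenvalues at one closed point come from `Ω`: the Tate classes on `A ^ r × U` are generated by divisor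
classes on `A ^ r` and Tate classes on `U`, for all abelian varieties `A` with one Frobenius element
given by an independent family of Weil numbers in the fields `K i`, outside of the same set `E`.** -/
theorem result {p : ℕ} [Fact p.Prime] (ν : PadicAlgCl p ≃+* ℂ) {I : Type}
    (K : I → Type) [∀ i, Field (K i)] [∀ i, NumberField (K i)] [∀ i, IsCMField (K i)]
    (w : I → ℕ) (hw : ∀ i, IsWeight (K i) (w i)) (Ω : Finset ℂ) :
    ∃ E : Finset (Σ i, ((K i →+* ℂ) → ℝ)), IsSmall w Ω E ∧
      SmoothDecoupled ν K Ω E ∧ SplitOutside ν K Ω E :=
  exists_smooth_split ν K w hw Ω

end Pool.Agent.Results.MP_2a05c8_ag.ProductsOfSmoothVarieties
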