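import Mathlib
import Pool.Agent.H943.KT.Main
import Pool.Agent.H943.KT.Open

/-!
# The Tate conjecture for open varieties over points of simple Shimura varieties

Let `A` be an abelian variety over a finitely generated field `k₀` of characteristic zero (for
example a number field), embedded in the field of complex numbers. Suppose that over `ℂ` it is, up
to isogeny, the product of abelian varieties `A i` with actions of division algebras `D i` of degree
`n i` over their centres, and let `F i` be a CM field contained in the centre of `D i`. Then
`dim (A i) = [F i : ℚ] (n i) (N i) / 2` for some `N i`, and for each embedding `τ` of `F i` in `ℂ` the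
field `F i` acts through `τ` on a subspace of dimension `n i * t i τ` of the tangent space of `A i`;
we have `t i τ + t i τ' = N i` if `τ'` is the complex conjugate of `τ`. We assume that `A i` is
simple as an abelian variety with an action of `D i`. **Nothing else is assumed on the `A i` and
their endomorphism algebras: they are not supposed to be generic in any sense, they may be simple or
not simple, of CM type or not.**

Let `X` be one of the following smooth varieties over `k₀`, in general **not proper**, or more
generally any smooth variety `X` with a morphism to `A ^ k` such that the part of weight zero of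
`H^{2m}(X, ℚ_ℓ(m))` is the image of the cohomology of `A ^ k` (`IsOver`):

* `X = A ^ k`, or an open subvariety of `A ^ k`, or of a product of powers of the `A i`;
* a connected commutative algebraic group whose abelian quotient is such a product `B` (for
  instance a semi-abelian variety, an extension of `B` by a torus), or an open subvariety of it;
* any torsor under a torus or a vector bundle over an open subvariety of `B`.

We prove `T^m(X)` **for all `m`, all prime numbers `ℓ`, and over all finite extensions of `k₀`**: each
Tate class in `H^{2m}(X, ℚ_ℓ(m))` is a combination of (restrictions or pull-backs of) products of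
divisor classes, if the following conditions on the factors and on the independence of the factors
are satisfied. (For a class which is invariant under the group `G` of `k₀` one takes the mean of the
cycles under the Galois group of the finite extension of `k₀` over which they are defined.)

**The factors.** Either `N i ≥ 3` and one of the conditions (a), (b), (c) is true, or `N i = 1` and
`t i` is a nondegenerate CM type (for instance, `A i` is an elliptic curve with complex
multiplication).

* (a) For one embedding `τ₀` the number `t i τ₀` is prime to `N i`, and `N i` is a power of a prime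
  number or `t i τ₀ ≤ 2`, and `t i τ` is equal to `0` or to `N i` for all `τ` different from `τ₀` and
  its complex conjugate (the signature is definite at all places except one).
* (b) `N i` is a power of an odd prime number `p`, and `t i τ` is divisible by `p` except for one
  pair of conjugate embeddings.
* (c) More generally, `N i` is a power of an odd prime number `p`, and the translates of `t i` modulo
  `p` by the automorphisms of `ℂ` separate the odd functions: each function `L` on the set of the
  embeddings with values in `ℤ / p` such that `L τ' = - L τ` and `∑ τ, t i (σ τ) L τ = 0` for all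
  `σ` is zero.

**The independence of the factors.** The numbers `N i` are pairwise coprime or powers of the same
odd prime number, and one of the following conditions is satisfied.

* There is only one factor, and `N` is prime to the degree of the Galois closure of `F` over `F`
  (there is no condition if `F` is a Galois extension of `ℚ`).
* The `F i` are imaginary quadratic fields, pairwise not isomorphic, and the `N i` are odd. So we
  have for example all products of powers of simple abelian varieties of odd prime power dimensions
  `N i` with multiplication by pairwise different imaginary quadratic fields and signatures prime to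
  `N i`.
* In general: `N i` is prime to the degree over `F i` of the Galois closure of the compositum of all
  the `F k`; the translates of `t`, as a function on the disjoint union of the sets of the
  embeddings of the `F i`, separate the complex odd functions; and if `p` divides two of the `N i`,
  then the translates of `t` modulo `p` separate the odd functions modulo `p` on the union of the sets
  of the embeddings of the `F i` for which `p` divides `N i`.

The condition of simplicity holds in the following two cases.

* The dimension of `D i` over `ℚ` is `2 dim (A i)`: then the rational homology of `A i` is a vector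
  space of dimension one over `D i`. These abelian varieties are parametrized by the simple Shimura
  varieties of Kottwitz and Harris-Taylor (of fake unitary groups), projective varieties of
  arbitrarily large dimensions. The theorem applies to all their points over number fields (and over
  finitely generated fields), special or not. In
  particular (a) contains **all points of all Shimura varieties of Harris and Taylor** with
  `dim (A i) ≥ 3 (n i)`. Here the centre of `D i` is the compositum of an imaginary quadratic field `K`
  and a totally real field `F'`, and the signature is `(1, n i - 1)` at one real place of `F'` and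
  `(0, n i)` at the others. One takes `F i = K`; then `N i = dim (A i) / n i`, and `K` acts on the
  tangent space with the multiplicities `n i` and `dim (A i) - n i`, that is, `t i` has the values `1`
  and `N i - 1`. If the signs at the definite places are arbitrary, then one takes the centre for
  `F i`, and the condition is that `F i` is a Galois extension of `ℚ`, or that `N i = n i` is prime to
  the degree of its Galois closure over `F i`.
* `A i` is simple over `ℂ`: for instance `D i = F i`, `n i = 1`, all simple abelian varieties of
  dimension `N` with multiplication by an imaginary quadratic field of signature `(t, N - t)`, where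
  `t` is prime to `N`, and `N` is a power of a prime number or `t ≤ 2`; and all simple abelian
  varieties of dimension `[F : ℚ] N / 2` with multiplication by `F` with one indefinite place.

The abelian varieties are given by their period matrices `Z`: `A = ℂ ^ g / (ℤ ^ g + Z ℤ ^ g)`, where
`Z` is symmetric with positive definite imaginary part (so `A` is principally polarized; each
abelian variety is isogenous to such a variety over a finite extension, and all the conditions and
the conclusion are invariant under isogeny and finite extensions). The factors of `A` are given by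
the idempotent endomorphisms. The properties of the Tate module which are used (`IsTateModule`: the
Weil pairing, the theorem of Faltings, the Hodge-Tate decomposition, the theorem of Serre and Pink
on the generation of the Lie algebra) are known theorems, in the formulation of the library module
`Pool.Agent.Y224.TS.Stm`.

The proof. The relative signature of `A` (with respect to the centre of its endomorphism algebra) is
determined as in `MP_e12fcd_ag.SimpleShimuraVarieties` (same run), where it is shown that it is
coprime, separated and nondegenerate, so that all Hodge classes on the powers of `A` are combinations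
of products of divisor classes. For the Tate classes we use the comparison of the Lie algebra
generated by the Hodge-Tate elements with the Lie algebra of the Mumford-Tate group from
`Pool.Agent.Y91.L` and `Pool.Agent.Y224.TS` (library, results `WeilClassesGenerateTate`): a
submodule of the homology which is irreducible for the second Lie algebra is irreducible for the
first one, contains elements of rank one if the relative signature is coprime at some place, and
different submodules are not related by twists if the signature is separated. So each Tate tensor on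
`A` is a combination of Hodge tensors, which we apply to the restrictions of the Tate classes on
`A ^ k` to the factors.
-/

set_option autoImplicit false

namespace Pool.Agent.Results.MP_2a05c8_ag.SimpleShimuraVarieties

open Module NumberField TensorProduct Pool.Agent.H204R3.CM Pool.Agent.H194R3.CM
  Pool.Agent.W437.HC Pool.Agent.W437.HD

/-- Rational matrices of size `2 g`. They act on the rational homology `ℚ ^ (2 g)` of the abelian
variety `A = ℂ ^ g / (ℤ ^ g + Z ℤ ^ g)`, which is mapped to the tangent space `ℂ ^ g` by
`perOne Z : (a, b) ↦ a + Z b`. -/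
abbrev Mat (g : ℕ) : Type := Matrix (Fin g ⊕ Fin g) (Fin g ⊕ Fin g) ℚ

variable {g : ℕ} (Z : Matrix (Fin g) (Fin g) ℂ)

/-- The complex matrix `M` is the action on the tangent space of the endomorphism of `A` (up to
isogeny) given by the rational matrix `x`. -/
def ActsOnTangent (x : Mat g) (M : Matrix (Fin g) (Fin g) ℂ) : Prop :=
  ∀ w : Fin g ⊕ Fin g → ℚ, perOne Z (x.mulVec w) = M.mulVec (perOne Z w)

/-- The rational matrix `x` is an endomorphism of `A` (up to isogeny). -/
def IsEndomorphism (x : Mat g) : Prop := ∃ M, ActsOnTangent Z x M

/-! ### One factor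

An action of a division algebra `D` on a factor of `A` is given by a homomorphism `ρ` from `D` to the
rational matrices which does not necessarily respect the units: `ρ 1` is an idempotent endomorphism
of `A`, and the factor is the image of `ρ 1`. -/

section

variable {D : Type} [DivisionRing D] {F : Type} [Field F] [NumberField F]

/-- The tangent vectors of the factor `(ρ 1) A` of `A` on which the field `F`, which acts on the
factor by `ρ ∘ j`, acts through the embedding `τ`. -/
def eigenspace (ρ : D →ₙ+* Mat g) (j : F →+* D) (τ : F →+* ℂ) : Submodule ℂ (Fin g → ℂ) where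
  carrier := {u | ∀ a M, ActsOnTangent Z (ρ (j a)) M → M.mulVec u = τ a • u}
  zero_mem' := fun a M _ => by rw [Matrix.mulVec_zero, smul_zero]
  add_mem' := fun {x y} hx hy a M h => by rw [Matrix.mulVec_add, hx a M h, hy a M h, smul_add]
  smul_mem' := fun c x hx a M h => by rw [Matrix.mulVec_smul, hx a M h, smul_comm]

/-- The division algebra `D` of degree `n` (so the dimension of `D` over its centre is `n ^ 2`) acts
by `ρ` on the factor `(ρ 1) A`, its centre contains the field `F` (embedded by `j`), twice the
dimension of the factor is `[F : ℚ] n N`, and the embedding `τ` of `F` occurs in the tangent space of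
the factor with multiplicity `n * t τ`. -/
structure HasSignature [Algebra ℚ D] (ρ : D →ₙ+* Mat g) (j : F →+* D) (n N : ℕ)
    (t : (F →+* ℂ) → ℕ) : Prop where
  endo : ∀ x, IsEndomorphism Z (ρ x)
  degree : finrank ℚ D = n ^ 2 * finrank ℚ (Subalgebra.center ℚ D)
  central : ∀ a x, j a * x = x * j a
  dim : (ρ 1).rank = finrank ℚ F * (n * N)
  signature : ∀ τ, finrank ℂ (eigenspace Z ρ j τ) = n * t τ

/-- The factor `B = (ρ 1) A` is simple as an abelian variety with an action of `D`: all nonzero
endomorphisms `x` of `B` which commute with `D` are invertible (up to isogeny). This holds if `B` is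
simple, since then all nonzero endomorphisms are invertible. -/
def IsSimpleOver (ρ : D →ₙ+* Mat g) : Prop :=
  ∀ x, IsEndomorphism Z x → ρ 1 * x = x → x * ρ 1 = x → (∀ y, x * ρ y = ρ y * x) → x ≠ 0 →
    ∃ y, y * x = ρ 1

/-- The complex conjugate of an embedding. -/
noncomputable def conj (τ : F →+* ℂ) : F →+* ℂ := (starRingEnd ℂ).comp τ

/-- The translate of an embedding by an automorphism of `ℂ`. -/
def translate (σ : ℂ ≃+* ℂ) (τ : F →+* ℂ) : F →+* ℂ := (σ : ℂ →+* ℂ).comp τ

/-- The translates of `t` separate the odd functions with values in the ring `R`. If `N = 1`, then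
`t` is the indicator function of a CM type, and this condition for `R = ℂ` means that the CM type is
nondegenerate. -/
def Separates (R : Type) [CommRing R] (t : (F →+* ℂ) → ℕ) : Prop :=
  ∀ L : (F →+* ℂ) → R, (∀ τ, L (conj τ) = - L τ) →
    (∀ σ : ℂ ≃+* ℂ, ∑ τ, (t (translate σ τ) : R) * L τ = 0) → L = 0

/-- The conditions on the signature of one factor for `N ≥ 3`. (a) There is an embedding `τ₀` such
that `t τ₀` is prime to `N`, `t τ₀ ≤ 2` or `N` is a power of a prime number, and `t` is `0` or `N`
outside `τ₀` and its complex conjugate. (b) `N` is a power of an odd prime number `p`, and `t` is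
divisible by `p` outside one pair of conjugate embeddings and prime to `p` there. (c) `N` is a power
of an odd prime number `p`, and the translates of `t` modulo `p` separate the odd functions.
For `N = 1`: the CM type `t` is nondegenerate. -/
def IsGood (N : ℕ) (t : (F →+* ℂ) → ℕ) : Prop :=
  (3 ≤ N ∧ ((∃ τ₀ : F →+* ℂ, Nat.Coprime (t τ₀) N ∧ (t τ₀ ≤ 2 ∨ IsPrimePow N) ∧
      ∀ τ, τ ≠ τ₀ → τ ≠ conj τ₀ → t τ = 0 ∨ t τ = N) ∨
    (∃ p c : ℕ, p.Prime ∧ p ≠ 2 ∧ N = p ^ c ∧
      ((∃ τ₀ : F →+* ℂ, ¬ p ∣ t τ₀ ∧ ∀ τ, τ ≠ τ₀ → τ ≠ conj τ₀ → p ∣ t τ) ∨
        Separates (ZMod p) t)))) ∨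
  (N = 1 ∧ Separates ℂ t)

end

/-! ### The product -/

section

variable {ι : Type} {F : ι → Type} [∀ i, Field (F i)]

/-- The disjoint union of the sets of the complex embeddings of the fields `F i`. -/
abbrev Embeddings (F : ι → Type) [∀ i, Field (F i)] : Type := Σ i, (F i →+* ℂ)

/-- The group of the permutations of the embeddings of the fields `F i` in `ℂ` which are induced by
the automorphisms of `ℂ`. It is isomorphic to the Galois group of the Galois closure of the
compositum of the fields `F i`. -/
def galoisGroup (F : ι → Type) [∀ i, Field (F i)] : Subgroup (Equiv.Perm (Embeddings F)) where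
  carrier := {π | ∃ σ : ℂ ≃+* ℂ, ∀ y, π y = ⟨y.1, translate σ y.2⟩}
  mul_mem' := by
    rintro π π' ⟨σ, hσ⟩ ⟨σ', hσ'⟩
    exact ⟨σ'.trans σ, fun y => by rw [Equiv.Perm.mul_apply, hσ', hσ]; rfl⟩
  one_mem' := ⟨RingEquiv.refl ℂ, fun y => rfl⟩
  inv_mem' := by
    rintro π ⟨σ, hσ⟩
    refine ⟨σ.symm, fun y => ?_⟩
    rw [Equiv.Perm.inv_eq_iff_eq, hσ]
    obtain ⟨i, τ⟩ := y
    refine congrArg (Sigma.mk i) ?_
    ext x
    exact (σ.apply_symm_apply (τ x)).symm

/-- The order of the stabilizer of the embedding `y` of `F i` in the Galois group of the Galois
closure of the compositum of the fields. It is the degree of this Galois closure over `F i`. -/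
noncomputable def closureDegree (y : Embeddings F) : ℕ :=
  Nat.card {π : galoisGroup F // (π : Equiv.Perm (Embeddings F)) y = y}

/-- The translates of `t` separate the odd functions with values in the ring `R` on the union of the
sets of the embeddings of the fields `F i` for the indices `i` in `S`. -/
def SeparatesOn [Fintype ι] [∀ i, NumberField (F i)] (R : Type) [CommRing R] (S : ι → Prop)
    (t : ∀ i, (F i →+* ℂ) → ℕ) : Prop :=
  ∀ L : Embeddings F → R, (∀ y, L ⟨y.1, conj y.2⟩ = - L y) → (∀ y, ¬ S y.1 → L y = 0) →
    (∀ σ : ℂ ≃+* ℂ, ∑ y : Embeddings F, (t y.1 (translate σ y.2) : R) * L y = 0) → L = 0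

/-- The independence of the factors. The numbers `N i` are pairwise coprime or powers of the same
odd prime number, and: either `N i` is prime to the degree over `F i` of the Galois closure of the
compositum of the fields; if there are several factors, then the translates of `t` separate the
complex odd functions; if an odd prime number `p` divides `N i` for several factors, then the
translates of `t` modulo `p` separate the odd functions modulo `p` for these factors; or the `F i`
are pairwise non-isomorphic imaginary quadratic fields, and the `N i` are odd. -/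
structure IsIndependent [Fintype ι] [∀ i, NumberField (F i)] (N : ι → ℕ)
    (t : ∀ i, (F i →+* ℂ) → ℕ) : Prop where
  pairs : ∀ i k, i ≠ k → Nat.Coprime (N i) (N k) ∨
    ∃ p : ℕ, p.Prime ∧ p ≠ 2 ∧ (∃ a, N i = p ^ a) ∧ ∃ b, N k = p ^ b
  fields : ((∀ y : Embeddings F, Nat.Coprime (N y.1) (closureDegree y)) ∧
      ((∃ i k : ι, i ≠ k) → SeparatesOn ℂ (fun _ => True) t) ∧
      ∀ p : ℕ, p.Prime → p ≠ 2 → (∃ i k : ι, i ≠ k ∧ p ∣ N i ∧ p ∣ N k) →
        SeparatesOn (ZMod p) (fun i => p ∣ N i) t) ∨
    ((∀ i, finrank ℚ (F i) = 2) ∧ (∀ i k, i ≠ k → IsEmpty (F i ≃+* F k)) ∧ ∀ i, ¬ 2 ∣ N i)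

end

/-- The assumptions of the theorem. The period matrix is symmetric with positive definite imaginary
part, and `A` is the product, up to isogeny, of the abelian varieties `A i = (ρ i 1) A` with actions
`ρ i` of division algebras `D i` of degree `n i` whose centres contain the CM fields `F i`, with
`2 dim (A i) = [F i : ℚ] (n i) (N i)`, and such that `F i` acts on the tangent space of `A i` with
the multiplicities `n i * t i τ`. Each `A i` is simple over `D i`, or the dimension of `D i` is
`2 dim (A i)` (this is the case of the simple Shimura varieties), and the signatures satisfy the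
conditions of `IsGood` and of `IsIndependent`. -/
structure IsShimuraProduct {ι : Type} [Fintype ι] {D : ι → Type} [∀ i, DivisionRing (D i)]
    [∀ i, Algebra ℚ (D i)] {F : ι → Type} [∀ i, Field (F i)] [∀ i, NumberField (F i)]
    (ρ : ∀ i, D i →ₙ+* Mat g) (j : ∀ i, F i →+* D i) (n N : ι → ℕ)
    (t : ∀ i, (F i →+* ℂ) → ℕ) : Prop where
  symm : Z.transpose = Z
  pos : (Z.map Complex.im).PosDef
  orth : ∀ i k, i ≠ k → ρ i 1 * ρ k 1 = 0
  sum : ∑ i, ρ i 1 = 1
  factor : ∀ i, HasSignature Z (ρ i) (j i) (n i) (N i) (t i)
  simple : ∀ i, IsSimpleOver Z (ρ i) ∨ finrank ℚ (D i) = (ρ i 1).rank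
  good : ∀ i, IsGood (N i) (t i)
  ind : IsIndependent N t

/-! ### The Tate module -/

/-- The Riemann form of `A = ℂ ^ g / (ℤ ^ g + Z ℤ ^ g)` on the rational homology `ℚ ^ (2 g)`: the
standard symplectic form. -/
def riemannForm (g : ℕ) (v w : Fin g ⊕ Fin g → ℚ) : ℚ :=
  ∑ i, (w (Sum.inl i) * v (Sum.inr i) - w (Sum.inr i) * v (Sum.inl i))

/-- The Tate module `ℚ_ℓ ⊗ H_1 (A, ℚ)`. -/
abbrev TateModule (ℓ g : ℕ) [Fact ℓ.Prime] : Type := ℚ_[ℓ] ⊗[ℚ] (Fin g ⊕ Fin g → ℚ)

/-- The `ℓ`-adic cohomology of the power `A ^ k` in degree `2 m`: the alternating forms in the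
`2 m` variables indexed by `Fin m × Fin 2` on the Tate module of `A ^ k`. -/
abbrev Form (ℓ g k m : ℕ) [Fact ℓ.Prime] : Type :=
  (Fin k → TateModule ℓ g) [⋀^Fin m × Fin 2]→ₗ[ℚ_[ℓ]] ℚ_[ℓ]

/-- An `ℓ`-adic Tate class of degree `2 m` on the power `A ^ k`: a subgroup of finite index of the
Galois group acts on the form through the `m`-th power of the cyclotomic character. -/
def IsTateClass {ℓ : ℕ} [Fact ℓ.Prime] {Γ : Type} [Group Γ]
    (rep : Representation ℚ_[ℓ] Γ (TateModule ℓ g)) (χ : Γ →* ℚ_[ℓ]) {k m : ℕ}
    (φ : Form ℓ g k m) : Prop :=
  ∃ Δ : Subgroup Γ, Δ.FiniteIndex ∧ ∀ s ∈ Δ, ∀ v, φ (fun x i => rep s (v x i)) = χ s ^ m * φ v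

/-- The class `φ` on `A ^ k` is a `ℚ_ℓ`-linear combination of classes which are rational linear
combinations of products of Hodge classes of degree two, that is, of divisor classes. -/
def IsDivisorial {ℓ : ℕ} [Fact ℓ.Prime] {k m : ℕ} (φ : Form ℓ g k m) : Prop :=
  ∃ (r : ℕ) (c : Fin r → ℚ_[ℓ])
    (f : Fin r → ((Fin k → Fin g ⊕ Fin g → ℚ) [⋀^Fin m × Fin 2]→ₗ[ℚ] ℚ)),
    (∀ x, f x ∈ divisorial (perPow Z k) m) ∧
      ∀ v : Fin m × Fin 2 → Fin k → Fin g ⊕ Fin g → ℚ,
        φ (fun x i => 1 ⊗ₜ[ℚ] v x i) = ∑ x, c x * ((f x v : ℚ) : ℚ_[ℓ])

/-- The form `φ'` is the translate of the cohomology class `φ` of `A ^ k`, with coefficients in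
`ℚ_ℓ(m)`, by the element `s` of the Galois group. -/
def IsTranslate {ℓ : ℕ} [Fact ℓ.Prime] {Γ : Type} [Group Γ]
    (rep : Representation ℚ_[ℓ] Γ (TateModule ℓ g)) (χ : Γ →* ℚ_[ℓ]) {k m : ℕ} (s : Γ)
    (φ φ' : Form ℓ g k m) : Prop :=
  ∀ v, φ' (fun x i => rep s (v x i)) = χ s ^ m * φ v

/-- The subspace `U` of the cohomology of `A ^ k` is stable under `Δ`. -/
def IsStable {ℓ : ℕ} [Fact ℓ.Prime] {Γ : Type} [Group Γ]
    (rep : Representation ℚ_[ℓ] Γ (TateModule ℓ g)) (χ : Γ →* ℚ_[ℓ]) {k m : ℕ} (Δ : Subgroup Γ)
    (U : Submodule ℚ_[ℓ] (Form ℓ g k m)) : Prop :=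
  ∀ s ∈ Δ, ∀ φ ∈ U, ∀ φ', IsTranslate rep χ s φ φ' → φ' ∈ U

/-- The theorem of Faltings (with the theorem of Chevalley on tensor products): the cohomology of
`A ^ k` is a semisimple representation of all subgroups `Δ` of finite index. -/
def IsSemisimple {ℓ : ℕ} [Fact ℓ.Prime] {Γ : Type} [Group Γ]
    (rep : Representation ℚ_[ℓ] Γ (TateModule ℓ g)) (χ : Γ →* ℚ_[ℓ]) (k m : ℕ) : Prop :=
  ∀ Δ : Subgroup Γ, Δ.FiniteIndex → ∀ U : Submodule ℚ_[ℓ] (Form ℓ g k m), IsStable rep χ Δ U →
    ∃ U' : Submodule ℚ_[ℓ] (Form ℓ g k m), IsStable rep χ Δ U' ∧ IsCompl U U'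

/-- The vector `w` of the representation `H` is fixed by a subgroup of finite index. -/
def IsTateVector {ℓ : ℕ} [Fact ℓ.Prime] {Γ : Type} [Group Γ] {W : Type} [AddCommGroup W]
    [Module ℚ_[ℓ] W] (H : Representation ℚ_[ℓ] Γ W) (w : W) : Prop :=
  ∃ Δ : Subgroup Γ, Δ.FiniteIndex ∧ ∀ s ∈ Δ, H s w = w

/-- Let `f : X → A ^ k` be a morphism of a smooth variety `X` to `A ^ k`, for instance the inclusion
of an open subvariety, or a torsor under a torus (a semi-abelian variety) over an open subvariety.
The representation `H` of the Galois group on `W = H^{2m}(X, ℚ_ℓ(m))` and the pull-back `pull` of the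
cohomology classes of `A ^ k` have the following known properties.

* `equivariant`: the pull-back is compatible with the actions of the Galois group.
* `deligne`: the classes in `W` which are fixed by an open subgroup are in the image of the
  pull-back, since the weights of the cokernel of the pull-back are positive (Deligne, Hodge II and
  Weil II: for an open subvariety and for a torsor under a torus over it the part of the lowest
  weight in the cohomology is the image of the cohomology of `A ^ k`).
* `faltings`: the cohomology of `A ^ k` is semisimple. -/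
structure IsOver {ℓ : ℕ} [Fact ℓ.Prime] {Γ : Type} [Group Γ]
    (rep : Representation ℚ_[ℓ] Γ (TateModule ℓ g)) (χ : Γ →* ℚ_[ℓ]) {k m : ℕ} {W : Type}
    [AddCommGroup W] [Module ℚ_[ℓ] W] (H : Representation ℚ_[ℓ] Γ W)
    (pull : Form ℓ g k m →ₗ[ℚ_[ℓ]] W) : Prop where
  equivariant : ∀ s φ φ', IsTranslate rep χ s φ φ' → pull φ' = H s (pull φ)
  deligne : ∀ w, IsTateVector H w → w ∈ LinearMap.range pull
  faltings : IsSemisimple rep χ k m

/-- The Tate conjecture for `A ^ k` in codimension `m`: each Tate class on `A ^ k` is a
`ℚ_ℓ`-linear combination of products of divisor classes. -/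
def TatePower {ℓ : ℕ} [Fact ℓ.Prime] {Γ : Type} [Group Γ]
    (rep : Representation ℚ_[ℓ] Γ (TateModule ℓ g)) (χ : Γ →* ℚ_[ℓ]) (k m : ℕ) : Prop :=
  ∀ φ : Form ℓ g k m, IsTateClass rep χ φ → IsDivisorial Z φ

/-- The Tate conjecture in codimension `m` for all smooth varieties `X` over `A ^ k` (`IsOver`; open
subvarieties, torsors under tori over open subvarieties): each Tate class in
`W = H^{2m}(X, ℚ_ℓ(m))` is the pull-back of a `ℚ_ℓ`-linear combination of products of divisor
classes. -/
def TateOver {ℓ : ℕ} [Fact ℓ.Prime] {Γ : Type} [Group Γ]
    (rep : Representation ℚ_[ℓ] Γ (TateModule ℓ g)) (χ : Γ →* ℚ_[ℓ]) (k m : ℕ) : Prop :=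
  ∀ (W : Type) [AddCommGroup W] [Module ℚ_[ℓ] W] (H : Representation ℚ_[ℓ] Γ W)
    (pull : Form ℓ g k m →ₗ[ℚ_[ℓ]] W), IsOver rep χ H pull →
      ∀ w : W, IsTateVector H w → ∃ φ : Form ℓ g k m, IsDivisorial Z φ ∧ pull φ = w

/-- Let `A` be an abelian variety over a finitely generated field of characteristic zero, given over
`ℂ` by the period matrix `Z`, which is a product of points of simple Shimura varieties in the sense
of `IsShimuraProduct`. Let `rep` be the representation of the Galois group `Γ` on the Tate module
`ℚ_ℓ ⊗ H_1 (A, ℚ)`, with the known properties (`IsTateModule`; `χ` is the cyclotomic character, and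
`ℂ` is identified with an algebraic closure of `ℚ_ℓ`).

1. Each Tate class on each power `A ^ k` is a `ℚ_ℓ`-linear combination of products of divisor
   classes (`TatePower`).
2. Let `X` be a smooth variety over `A ^ k` (`IsOver`): an open subvariety, or a torsor under a torus
   over an open subvariety. Then each Tate class in `W = H^{2m}(X, ℚ_ℓ(m))` is the pull-back of a
   `ℚ_ℓ`-linear combination of products of divisor classes (`TateOver`). -/
theorem result {ι : Type} [Fintype ι] {D : ι → Type} [∀ i, DivisionRing (D i)]
    [∀ i, Algebra ℚ (D i)] [∀ i, Module.Finite ℚ (D i)] {F : ι → Type} [∀ i, Field (F i)]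
    [∀ i, NumberField (F i)] [∀ i, IsCMField (F i)] (ρ : ∀ i, D i →ₙ+* Mat g)
    (j : ∀ i, F i →+* D i) (n N : ι → ℕ) (t : ∀ i, (F i →+* ℂ) → ℕ)
    (hA : IsShimuraProduct Z ρ j n N t)
    (ℓ : ℕ) [Fact ℓ.Prime] [Algebra ℚ_[ℓ] ℂ] [Algebra.IsAlgebraic ℚ_[ℓ] ℂ]
    {Γ : Type} [Group Γ] (rep : Representation ℚ_[ℓ] Γ (TateModule ℓ g)) (χ : Γ →* ℚ_[ℓ])
    (hrep : Pool.Agent.Y224.TS.St.IsTateModule (perOne Z) (riemannForm g) rep χ) (k m : ℕ) :
    TatePower Z rep χ k m ∧ TateOver Z rep χ k m := by
  have main : ∀ φ : Form ℓ g k m, IsTateClass rep χ φ → IsDivisorial Z φ := by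
    intro φ hφ
    obtain ⟨hsymm, hpos, horth, hsum, hD, hsimple, hgood, hind⟩ := hA
    have hB : ∀ i, Pool.Agent.H943.KP.Bk Z (ρ i) := fun i =>
      ⟨(hD i).endo, fun x hx h1 h2 h3 h0 => (hsimple i).elim (fun h => h x hx h1 h2 h3 h0)
        fun h => Pool.Agent.H943.KP.com_of_dim (ρ i) h h1 h2 h3 h0⟩
    have hgal : galoisGroup F = (@MulAction.toPermHom (RingAut ℂ) (Embeddings F) _
        (Pool.Agent.H943.KP.emAct F)).range := by
      ext π
      constructor
      · rintro ⟨σ, hσ⟩
        exact ⟨σ, Equiv.ext fun y => (hσ y).symm⟩
      · rintro ⟨σ, rfl⟩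
        exact ⟨σ, fun y => rfl⟩
    have M : Pool.Agent.Y4.K.Pol Z := ⟨hsymm, hpos⟩
    obtain ⟨c1, c2, c3⟩ := Pool.Agent.H943.KT.conds_all M hB horth hsum
      (fun i => (hD i).central) n N t (fun i => (hD i).degree) (fun i => (hD i).dim)
      (fun i => (hD i).signature) hgood hind.pairs (by
        rcases hind.fields with ⟨h1, h2, h3⟩ | h
        · refine Or.inl ⟨fun y => ?_, h2, h3⟩
          have h8 := h1 y
          rw [closureDegree, hgal] at h8
          exact h8
        · exact Or.inr h)
    have hform : riemannForm g = Pool.Agent.H943.KT.riem g := by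
      funext v w
      rw [riemannForm, Pool.Agent.H943.KT.riem_eq]
    rw [hform] at hrep
    exact Pool.Agent.H943.KT.tate_div M c1 c2 c3 hrep φ hφ
  refine ⟨main, fun W _ _ H pull hX w hw => ?_⟩
  have hr := hX.deligne w hw
  obtain ⟨Δ, hΔ, hw⟩ := hw
  obtain ⟨φ, h1, h2⟩ := Pool.Agent.H943.KT.lift_tate (fun s φ φ' h => hX.equivariant s φ φ' h)
    (fun U hU => hX.faltings Δ hΔ U hU) hw hr
  exact ⟨φ, main φ ⟨Δ, hΔ, h2⟩, h1⟩

end Pool.Agent.Results.MP_2a05c8_ag.SimpleShimuraVarieties
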