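import Mathlib
import Pool.Agent.H298.Core.WeilRel
import Pool.Graph.R_seed8.Y1.TS.Main
import Pool.Agent.H298.Core.Double

/-!
# The Tate conjecture for the products of arbitrary smooth varieties over finitely generated fields
with abelian varieties which have one Frobenius element in CM fields with irreducible odd part or
primitive core

**In short.** Let `K` be a CM field of degree `2 g`, `K₀` its maximal real subfield and `2 ^ v`, `1
≤ v ≤ g`, the degree of the Galois closure of `K` over the Galois closure of `K₀` (typically `v =
g`). The theorem is for the Weil numbers `π` all powers of which generate `K`, in the following
cases (`FieldCriteria`, `DoublyCriteria`), among others: **(a) `v > g / 3`; (b) the slopes of `π`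
have odd denominators, for example `π` is ordinary, and `v > g / 4`, or `g` is the product of two
prime numbers and `v > 1`, or `g` is prime, or `K` has few divisors in the sense of `FewDivisors`;
(c) the Galois group of `K₀` is doubly transitive, and `g` is odd, or `g - 1` is a prime number, or
at least `g` is none of the numbers `10, 16, 26, 28, 36, …` (`TwoGraphDegree`); or it is triply
transitive, for example the symmetric group, or the alternating group if `g ≥ 5`, `g ≥ 3`; and no
norm of `π` to an imaginary quadratic field is supersingular** (this is so if `g` is odd and `π` is
ordinary). The general hypothesis (`IsCoreWeil`) is explained below.

**Cores.** Let `K` be a CM field of degree `2 g`, `X` the set of its complex embeddings. The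
automorphisms of `ℂ` which map all elements of `X` to themselves or to their complex conjugates are
called sign changes. The first core of `φ : X` consists of the `ψ : X` which are moved by the same
sign changes as `φ`. If one uses all automorphisms which map the elements of the first core to
themselves or to their conjugates, one obtains the second core, inside of the first one, and so on
(`coreOf`). The cores of the same index have the same number `2 c` of elements, `c` divides `g`, and
the smallest such number `c` is the core number of `K`. It is one for the typical CM field (all sign
patterns occur). If `g` is prime it is one or `g`; if `g` is a product of two prime numbers it is
one or prime as soon as there is a sign change different from the identity and the complex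
conjugation. If a prime number `ℓ` divides the discriminant of `K`, but not the discriminant of the
maximal real subfield, then `ℓ ^ c` divides the discriminant of `K`; so `c` is one or prime if there
is no other divisor `d` of `g` such that `ℓ ^ d` divides the discriminant of `K` (`FewDivisors`).

**The Weil numbers.** Let `p` be a prime number, `q = p ^ a`, let `K i` (`i` in a finite set) be CM
fields and `π i` Weil numbers for `q` in `K i` such that each power `(π i) ^ n`, `n ≥ 1`, generates
`K i`. Suppose that for each `K = K i` one of the following conditions holds (`IsCoreWeil`).

* The rational functions on `X` which change their sign under complex conjugation are an irreducible
  representation of the automorphisms of `ℂ` (`OddIrreducible`), for example because the core number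
  of `K` is one.
* There is a core with `c` pairs of embeddings, and `c` is a prime number, or `c = [K : F]` for a
  subfield `F`, not totally real, such that the automorphisms of `ℂ` act doubly transitively on the
  extensions to `K` of an embedding of `F` (`PrimitiveCore`); and there is **no** subfield `F` with
  `[K : F] = c`, not totally real, in which the norm `N` of `π i` is supersingular
  (`SupersingularNorm`; this means that `N ^ 2 / q ^ c` is a root of unity).

The condition on the norms in the second case is necessary and sufficient for the absence of
relations between the conjugates of `π i` (`NormCriteria`); it is satisfied if `c = 2`, if `c` is
odd and the slopes of `π i` have odd denominators (for example in the ordinary case), and if all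
subfields `F` with `[K : F] = c` are totally real. There are no other conditions on `π i`, its
slopes, the decomposition of `p` in `K i`, the degree or the Galois group of `K i`. The fields `K i`
are pairwise independent (`PairwiseIndep`; no condition if there is only one field).

**The theorem** (`TateClassesSplit`, `ClassesSplit`). Let `k` be a finitely generated field (of any
characteristic), `A` an abelian variety over `k`, and let `γ` be a Frobenius element of the Galois
group `Γ` of `k` at **one** place of good reduction, the residue field having `p ^ a` elements, for
which the characteristic polynomial on the Tate module `V = V_ℓ (A)` is the product of the minimal
polynomials of the Weil numbers `π i`. Let `U` be an **arbitrary smooth variety** over `k`, proper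
or not, and `M = W_b H^b(U, ℚ_ℓ(i))`, or any other representation of `Γ` of finite dimension,
semisimple or not, such that the eigenvalues of `γ` on `M` are roots of a polynomial `f ≠ 0` with
rational coefficients all of whose complex roots are unrelated to the fields `K i` (`UnrelatedTo`).
A complex number `ρ ≠ 0` is unrelated to the fields `K i` (`UnrelatedTo`) if a rational function on
the complex embeddings of `K i` which changes its sign under complex conjugation and is invariant
under all automorphisms of `ℂ` that fix a power of `ρ` is zero. This is so if for each embedding `ψ`
of `K i` some automorphism which fixes a power of `ρ` is the complex conjugation on `ψ (K i)`, for
instance if a power of `ρ` is in a totally real field, or in a number field `F` from which `K i` is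
separated by a prime number (see below).

Then **the classes in `H^j(A ^ r) ⊗ M` which are fixed by a subgroup of finite index of `Γ` are zero
for odd `j`, and linear combinations of products of `m` Tate classes of degree two on `A ^ r` (that
is, of divisor classes, by Tate, Zarhin and Faltings) and of Tate classes in `M(-m)` for `j = 2
m`.** The classes in `H^j(A ^ r) ⊗ M` are the alternating maps of `j` variables from `V ^ r` to `M`.
So for all these `A` and all these smooth varieties `U` the Tate conjecture for `A ^ r × U` (all
codimensions, all `r`, over all finite extensions) is equivalent to the Tate conjecture for `U`. It
is true for example if `U` is an open subset of affine space or of any variety with only algebraic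
classes, a torus, or a smooth curve. The hypotheses on `V` (`IsPolarised`) are the Weil pairing and
the semisimplicity (Tate, Zarhin, Faltings). The hypothesis on the Frobenius element can be read off
from its characteristic polynomial:

Part two (`AllCriteria`) contains the cases (a), (b) and (c) above (`FieldCriteria`,
`DoublyCriteria`) and criteria by degrees, sign changes and discriminants: for the cores (`c`
divides `g`, `g` itself is possible; if `g` is the product of two prime numbers then a sign change
which moves some embeddings but not all gives a core with `c = 1` or `c` prime; the discriminant
criterion `FewDivisors`), for the norms (`NormCriteria`), for the independence of the fields, and
for the condition on the eigenvalues. A prime number `ℓ` separates `K i` from a number field `F` if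
`ℓ` divides the discriminant of `K i` but not the one of its maximal real subfield and not the one
of `F`. The fields `K i` are pairwise independent if any two of them are separated by a prime number
(in one direction). All nonzero elements of `F` are independent of the `K i`, in particular
unrelated to them, if all `K i` are separated from `F`. So for example, if `ℓ` divides the
discriminant of a CM field `K` and `ℓ ^ 2` does not, then the theorem holds for all Weil numbers `π`
in `K` with `ℚ(π ^ n) = K` for all `n`, and all varieties whose eigenvalues lie in fields of a
discriminant prime to `ℓ`.

**What was known.** For abelian varieties of prime dimension the conjecture is due to Tankeev (and
Ribet, Serre, Chi; over finite fields Lenstra and Zarhin). In the library there are the abelian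
varieties with a Frobenius element of almost all slope types (`AllCMTypesTimesSmooth`, whose machine
is used). New here are the Weil numbers of the CM fields with primitive cores, in all dimensions,
with a condition on the norms which is necessary and sufficient, and the criteria.

**The proof.** It is sufficient to show for each field `K` that the function `w`, the slope of `φ
(π)` minus one half, on the set `X` is not orthogonal to a nonzero space of odd functions which is
stable under the automorphisms of `ℂ`. If the odd functions are irreducible this is clear. Let `r`
be an element of such a space with integral values. By the sign changes one can cut `r` down; this
gives, by induction on the size of the support and on the index of the core, a relation which is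
supported in one core. The automorphisms preserving the core act transitively on it. If it has `2 c`
elements with a prime number `c`, then a Sylow subgroup contains an element which has two orbits of
length `c` on the core, exchanged by the complex conjugation. Since the cyclotomic polynomial is
irreducible, either `w (τ φ) = w (τ φ')` for all `τ` with two different `φ`, `φ'` of the core, or
the sums of `w` over the translates of one orbit are zero, and the orbit consists of the extensions
of an embedding of a subfield `F` with `[K : F] = c`, which is not totally real. In the doubly
transitive case the extensions of an embedding of `F` are one half of the core (a sign change moves
all of them or none), and an average over a stabilizer gives the same two alternatives. In the first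
case `φ (π)` and `φ' (π)` have the same absolute values at all places of all conjugates, so they
differ by a root of unity, and a power of `π` does not generate `K`. In the second case the norm of
`π` in `F` is supersingular. Conversely a supersingular norm is a relation, by Kronecker's theorem.
For the cases (a), (b) and (c) one uses that a sign change is determined by the first cores which it
moves, so that `2 ^ v ≤ 2 ^ (g / c)`, and that for a triply transitive group either the odd
functions are irreducible or the signs are given by a character of the group, so that `K` contains
an imaginary quadratic field. If the group is doubly transitive, let `V` be a space of odd functions
which is stable under the automorphisms, neither zero nor everything. The values of its reproducing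
kernel at two embeddings in different pairs are `β` or `-β`, and `β ≠ 0`; the signs form a regular
two-graph on the `g` pairs, with the eigenvalues `r` on `V` and `-s` on the orthogonal space, `r s =
g - 1`, `(r + s) dim V = g s`. If `g` is odd then `r` or `s` is even, and a descent modulo two shows
that the nonzero functions in one of the two spaces have no zeros; by the maximum principle this is
also true if `r` or `s` is `1` or `-1`. So this space has dimension one, and the signs of its
functions give an imaginary quadratic subfield. -/

set_option autoImplicit false

namespace Pool.Agent.Results.MP_2a05c8_ag.SmallCoreFields

open NumberField Module Pool.Agent.H977R3.CM Pool.Agent.Y1.CT Pool.Agent.Y1.TS
  Pool.Agent.Y137.MV Pool.Agent.Y137.SL Pool.Agent.H298.Core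

/-- **The Tate conjecture for `A ^ r × U` is equivalent to the Tate conjecture for `U`, for all smooth
varieties `U` over finitely generated fields and all abelian varieties `A` with a Frobenius element
whose Weil numbers lie in independent CM fields with irreducible odd part or primitive core and are
unrelated to those of `U`.** -/
theorem result :
    (∀ (p : ℕ) [Fact p.Prime] (a : ℕ), 0 < a → ∀ (I : Type) [Fintype I] (K : I → Type)
      [∀ i, Field (K i)] [∀ i, NumberField (K i)] [∀ i, IsCMField (K i)], PairwiseIndep K →
      ∀ π : ∀ i, K i, (∀ i, IsCoreWeil p a (π i)) → TateClassesSplit (p := p) a K π) ∧ AllCriteria :=
  ⟨fun _ _ _ ha _ _ _ _ _ _ hK _ hπ => split_of_angle
    (fun i => Pool.Agent.Y156.P.gen_one (hπ i).simple) (fun i => (hπ i).simple.weil)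
    (angle_core ha hK hπ), allCriteria_hold⟩

end Pool.Agent.Results.MP_2a05c8_ag.SmallCoreFields
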